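import Pool.Agent.Lib.MP_5d4057_al.AG.Conv

namespace Pool.Agent.Results.MP_5d4057_al.Amalgams

open Pool.Agent.Lib.MP_5d4057_al Pool.Agent.Lib.MP_5d4057_al.AG

theorem result (k : ℕ) (hk : 3 ≤ k) (Γ₃ : Subgroup (SUGroup k))
    (Γ : Fin 2 → Subgroup (SUGroup (k + 1))) (h₃ : IsLattice Γ₃) (hA₃ : Arithmetic k Γ₃)
    (hL : ∀ b, IsLattice (Γ b)) (hA : ∀ b, Arithmetic (k + 1) (Γ b))
    (ι : ∀ b, Grp Γ₃ →* Grp (Γ b)) (hι : ∀ b, Function.Injective (ι b))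
    (ρ : Amalgam ι →* SUGroup (k + 2)) (hinj : InjFactors ρ) (hlat : IsLattice ρ.range) :
    Arithmetic (k + 2) ρ.range :=
  amalgam_arithmetic k hk Γ₃ Γ h₃ hA₃ hL hA ι hι ρ hinj hlat

end Pool.Agent.Results.MP_5d4057_al.Amalgams
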