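import Pool.Agent.Lib.MP_5d4057_al.CF.Main

namespace Pool.Agent.Results.MP_5d4057_al.Connected

open Pool.Agent.Lib.MP_5d4057_al Pool.Agent.Lib.MP_5d4057_al.Hyb
  Pool.Agent.Lib.MP_5d4057_al.HM Pool.Agent.Lib.MP_5d4057_al.CF

theorem result (k : ℕ) (hk : 1 ≤ k) (G : Subgroup (SUGroup (k + 2))) (hlat : IsLattice G)
    (I : Type) [Nonempty I] (g : I → SUGroup (k + 2)) (Λ : I → Subgroup (SUGroup (k + 1)))
    (hL : ∀ i, IsLattice (Λ i)) (hA : ∀ i, IsArith (k + 1) (Λ i))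
    (hmem : ∀ i, (Λ i).map (emb (g i)) ≤ G) (hc : Conn (trl G g))
    (J : Type) [Finite J] (s : J → I) (S : J → Subgroup (SUGroup (k + 2)))
    (hS : ∀ b, (Λ (s b)).map (emb (g (s b))) ≤ S b)
    (hfin : ∀ b, ((Λ (s b)).map (emb (g (s b)))).relIndex (S b) ≠ 0)
    (X : Set (SUGroup (k + 2))) (hX : X.Finite)
    (hgen : G = Subgroup.closure ((⋃ b, (S b : Set (SUGroup (k + 2)))) ∪ X)) :
    IsArith (k + 2) G :=
  connected_trl k hk hlat g Λ hL hA hmem hc s S hS hfin X hX hgen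

end Pool.Agent.Results.MP_5d4057_al.Connected
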