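import Pool.Agent.Lib.MP_5d4057_al.Main
import Pool.Agent.Lib.MP_5d4057_al.Stmt

namespace Pool.Agent.Results.MP_5d4057_al.HuntTwo

open Pool.Agent.Lib.MP_5d4057_al

theorem arith {Δ : Subgroup (SU 1)} (h : IsArithmeticSL2 Δ) :
    @IsArithmeticSU11 (Δ : Subgroup (SU 1)) := h

theorem result (Γ : Subgroup (SUGroup 2)) (hΓ : IsLattice Γ) (hfg : Γ.FG) :
    ∃ Δ : Fin 2 → Subgroup (SUGroup 1), (∀ j, IsArithmeticSU11 (Δ j)) ∧
      IsAmalgamImage (fun j => Δ j) (SUGroup 0) Γ := by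
  obtain ⟨Δ, h1, h2⟩ := main Γ hΓ hfg
  exact ⟨Δ, fun j => arith (h1 j), h2⟩

end Pool.Agent.Results.MP_5d4057_al.HuntTwo
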