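import Pool.Agent.Lib.MP_5d4057_al.TW.Short

namespace Pool.Agent.Results.MP_5d4057_al.Hybrid

open Pool.Agent.Lib.MP_5d4057_al Pool.Agent.Lib.MP_5d4057_al.Hyb
  Pool.Agent.Lib.MP_5d4057_al.TW

theorem result (k : ℕ) (hk : 1 ≤ k) (Γ₃ : Subgroup (SUGroup k))
    (Γ D : Fin 2 → Subgroup (SUGroup (k + 1))) (h₃ : IsLattice Γ₃) (hL : ∀ b, IsLattice (Γ b))
    (hA : ∀ b, IsArith (k + 1) (Γ b)) (ι : ∀ b, Grp Γ₃ →* Grp (Γ b))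
    (hι : ∀ b, Function.Injective (ι b)) (ρ : Amalgam ι →* SUGroup (k + 2))
    (g : Fin 2 → SUGroup (k + 2)) (hfin : ∀ b, (D b).relIndex (Γ b) ≠ 0)
    (hρ : VirtStd ρ D g) (hlat : IsLattice ρ.range) : IsArith (k + 2) ρ.range :=
  amalgam_short k hk Γ₃ Γ D h₃ hL hA ι hι ρ g hfin hρ hlat

end Pool.Agent.Results.MP_5d4057_al.Hybrid
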